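import Pool.Agent.TH373.DR2.Words

set_option autoImplicit false

/-!
# All short words occur in the expansion of almost every `√n`

Let `ρ > 0` be real and not an integer, `τ > 0`, let `h` be real analytic at `0` with `h 0 ≠ 0`,
`β` real, `p n` arbitrary integers and `x n = p n + β + n^ρ h(n^(-τ))`; for instance `x n = √n`.
Let `b ≥ 2` (for instance `b = 10`).  We show: for all `n ≤ X` with at most `X / (log X)^B`
exceptions, every block of at least `δ log X` consecutive digits of `x n` among the first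
`A log X` digits contains every word of length `k` in the digits `0, …, b - 1` for every `k`
with `b^k (log log X)^4 ≤ log X`.
-/

namespace Pool.Agent.Results.MP_175f55_nt.AllShortWords

open Finset Pool.Agent.TH373.DR

/-- The `j`-th digit after the point of the real number `x` in base `b` (`j ≥ 1`), that is
`⌊x b^j⌋` modulo `b`. -/
noncomputable def digit (b : ℕ) (x : ℝ) (j : ℕ) : ℤ := ⌊x * (b : ℝ) ^ j⌋ % (b : ℤ)

/-- **Theorem.** -/
theorem result (ρ : ℝ) (hρ0 : 0 < ρ) (hρ : ∀ m : ℕ, ρ ≠ m) (τ : ℝ) (hτ : 0 < τ)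
    (h : ℝ → ℝ) (hh : AnalyticAt ℝ h 0) (h0 : h 0 ≠ 0) (β : ℝ) (p : ℕ → ℤ)
    (b : ℕ) (hb : 2 ≤ b) (A δ : ℝ) (hδ : 0 < δ) (B : ℕ) :
    ∃ X₀ : ℕ, ∀ X : ℕ, X₀ ≤ X → ∀ S : Finset ℕ,
      (∀ n ∈ S, 1 ≤ n ∧ n ≤ X ∧ ∃ (k : ℕ) (w : Fin k → Fin b) (i L : ℕ), 1 ≤ k ∧
        (b : ℝ) ^ k * Real.log (Real.log X) ^ 4 ≤ Real.log X ∧ 1 ≤ i ∧
        δ * Real.log X ≤ L ∧ ((i + L : ℕ) : ℝ) ≤ A * Real.log X ∧
        ∀ j : ℕ, i ≤ j → j + k ≤ i + L →
          ¬ ∀ s : Fin k, digit b (p n + β + (n : ℝ) ^ ρ * h ((n : ℝ) ^ (-τ))) (j + s) =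
            ((w s : ℕ) : ℤ)) →
      (S.card : ℝ) ≤ X / Real.log X ^ B := by
  obtain ⟨s, hreg⟩ := reg_puiseux ρ τ hρ hτ h hh h0
  have hE : ((max 2 ⌈ρ⌉₊ : ℕ) : ℝ) - 2 - ρ < 0 * Real.log b := by
    rw [zero_mul]
    rcases le_total 2 ⌈ρ⌉₊ with h | h
    · rw [max_eq_right h]
      have := Nat.ceil_lt_add_one hρ0.le
      linarith
    · rw [max_eq_left h]
      push_cast
      linarith
  have hA' : 0 < max A 1 := lt_of_lt_of_le one_pos (le_max_right _ _)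
  have hI : IndTV b (fun n : ℕ => 1 * ((n : ℝ) ^ (ρ - (0 : ℕ)) * GG ρ τ h 0 ((n : ℝ) ^ (-τ))) + β)
      0 (max A 1) := indep_tv hreg b hb 1 β one_ne_zero 0 (max A 1) le_rfl hA' hE
  obtain ⟨X0, hmain⟩ := all_words b hb _ 0 (max A 1) hA' hI δ hδ B
  have t : Filter.Tendsto (fun X : ℕ => Real.log X) Filter.atTop Filter.atTop :=
    Real.tendsto_log_atTop.comp tendsto_natCast_atTop_atTop
  obtain ⟨X1, hX1⟩ := Filter.eventually_atTop.1 (t.eventually_ge_atTop 1)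
  refine ⟨max X0 X1, fun X hX S hS => ?_⟩
  have hX0 := (le_max_left X0 X1).trans hX
  have hlog1 := hX1 X ((le_max_right X0 X1).trans hX)
  have hlog : 0 < Real.log X := by linarith
  have hres := hmain X hX0 S (fun n hn => by
    obtain ⟨hn1, hn2, k, w, i, L, hk1, hk, hi, hL, hiL, hno⟩ := hS n hn
    refine ⟨hn1, hn2, k, w, i - 1, L, hk1, hk, ?_, hL, ?_, fun j hj1 hj2 hcon => ?_⟩
    · rw [zero_mul]; positivity
    · have h1 : ((i - 1 + L : ℕ) : ℝ) ≤ ((i + L : ℕ) : ℝ) := by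
        exact_mod_cast (by omega : i - 1 + L ≤ i + L)
      exact h1.trans (hiL.trans (mul_le_mul_of_nonneg_right (le_max_left _ _) hlog.le))
    · refine hno (j + 1) (by omega) (by omega) (fun s => ?_)
      have h1 := hcon s
      have h2 : 1 ≤ j + 1 + (s : ℕ) := by omega
      unfold digit
      have e1 : (p n : ℝ) + β + (n : ℝ) ^ ρ * h ((n : ℝ) ^ (-τ)) =
          (p n : ℝ) + (1 * ((n : ℝ) ^ (ρ - (0 : ℕ)) * GG ρ τ h 0 ((n : ℝ) ^ (-τ))) + β) := by
        simp [GG]; ring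
      rw [e1, dgt_add_int b _ _ _ h2, ← dgt_eq b _ _ h2]
      have e2 : j + 1 + (s : ℕ) - 1 = j + s := by omega
      rw [e2]
      exact h1)
  refine hres.trans (le_of_eq ?_)
  rw [div_eq_mul_inv]
  congr 1
  rw [Real.exp_neg, Real.exp_nat_mul, Real.exp_log hlog]

end Pool.Agent.Results.MP_175f55_nt.AllShortWords
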