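import Pool.Agent.TH869.LPD.All

/-!
# The digits of polynomial multiples of `√2` and of all square roots

Let `f` be a polynomial with integer coefficients of degree between `1` and `d`, and `h` a real
polynomial of smaller degree. The digits of the numbers `f(l) √D + h(l)`, `l < N`, in base `b`, are
equidistributed, with a power saving in `N`, at places `s` which are explicitly located, and all but
few of these numbers contain every block of `k` digits infinitely often, uniformly in the nonsquare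
`D` (for instance `D = 2`) and in the base `b` (for instance `b = 10`).
-/

set_option autoImplicit false

namespace Pool.Agent.Results.MP_175f55_nt.PolynomialMultiples

open Polynomial Pool.Agent.W226.MP Pool.Agent.TH869.LPD

/-- `√D` is badly approximable -/
lemma sqrt_measure (D : ℕ) (hD : ¬ IsSquare D) :
    ∀ q : ℕ, 1 ≤ q → ∀ p : ℤ,
      1 / (2 * Real.sqrt D + 1) ≤ (q : ℝ) ^ (1 : ℝ) * |q * Real.sqrt D - p| := by
  intro q hq p
  rw [Real.rpow_one]
  have hq1 : (1 : ℝ) ≤ q := by exact_mod_cast hq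
  have hs0 : 0 ≤ Real.sqrt D := Real.sqrt_nonneg _
  rw [div_le_iff₀ (by positivity)]
  rcases le_or_gt 1 |(q : ℝ) * Real.sqrt D - p| with h | h
  · have h1 : 1 * 1 ≤ (q : ℝ) * |(q : ℝ) * Real.sqrt D - p| := by gcongr
    nlinarith
  · have hne : (q : ℤ) ^ 2 * D - p ^ 2 ≠ 0 := by
      intro h0
      apply hD
      have h1 : p ^ 2 = (q : ℤ) ^ 2 * D := by linarith
      have h2 : p.natAbs ^ 2 = q ^ 2 * D := by
        have : ((p.natAbs ^ 2 : ℕ) : ℤ) = ((q ^ 2 * D : ℕ) : ℤ) := by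
          push_cast
          rw [sq_abs, h1]
        exact_mod_cast this
      have h3 : q ∣ p.natAbs := by
        rw [← Nat.pow_dvd_pow_iff (n := 2) (by norm_num), h2]
        exact dvd_mul_right _ _
      obtain ⟨r, hr⟩ := h3
      rw [hr, mul_pow] at h2
      exact ⟨r, by
        have := Nat.eq_of_mul_eq_mul_left (by positivity : 0 < q ^ 2) h2
        rw [← this]; ring⟩
    have h1 : (1 : ℝ) ≤ |((q : ℝ) ^ 2 * D - p ^ 2)| := by
      have : (1 : ℤ) ≤ |(q : ℤ) ^ 2 * D - p ^ 2| := Int.one_le_abs hne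
      exact_mod_cast this
    have h2 : ((q : ℝ) ^ 2 * D - p ^ 2) = (q * Real.sqrt D - p) * (q * Real.sqrt D + p) := by
      have := Real.sq_sqrt (Nat.cast_nonneg (α := ℝ) D)
      linear_combination (-(q:ℝ)^2) * this
    have h3 : |(q : ℝ) * Real.sqrt D + p| ≤ 2 * (q * Real.sqrt D) + 1 := by
      have h4 := abs_lt.1 h
      have h5 : 0 ≤ (q : ℝ) * Real.sqrt D := by positivity
      rw [abs_le]
      constructor <;> linarith
    rw [h2, abs_mul] at h1
    have h4 : 0 ≤ |(q : ℝ) * Real.sqrt D - p| := abs_nonneg _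
    calc (1 : ℝ) ≤ |(q : ℝ) * Real.sqrt D - p| * |(q : ℝ) * Real.sqrt D + p| := h1
      _ ≤ |(q : ℝ) * Real.sqrt D - p| * (2 * (q * Real.sqrt D) + 1) := by gcongr
      _ ≤ |(q : ℝ) * Real.sqrt D - p| * (q * (2 * Real.sqrt D + 1)) := by
          gcongr
          nlinarith
      _ = _ := by ring

/-- For every `d` there are `c, C > 0` such that for all `D ∈ ℕ` which are not squares (for instance
`D = 2`), all bases `b ≥ 2` (for instance `b = 10`), all `f ∈ ℤ[X]` with `1 ≤ deg f ≤ d`, all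
`h ∈ ℝ[X]` with `deg h < deg f` and all `N ≥ 1` the numbers `y l = f(l) √D + h(l)`, `l < N`, have the
following properties.
(1) After every place `S` there is a place `s ≤ 2 S + log_b (N |a|) + log D + 3`, `a` the leading
coefficient of `f`, such that
(1a) the number of `l < N` with `α ≤ {b ^ s y l} < β` is `(β - α) N` up to an error of
`C N (b / N) ^ c`;
(1b) if `b ^ L ≤ (N / b) ^ c` and `1 ≤ k ≤ L`, `0 < ε ≤ 1`, then for all but at most
`C k b ^ k exp (- (ε² / 4) ⌊(L + 1 - k) / k⌋) N` of the `l < N`, every block `w` of `k` digits occurs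
in the `L` digits of `y l` after the place `s` the expected number `(L + 1 - k) / b ^ k` of times up
to an error of `ε (L + 1 - k) + k`.
(2) For every `k ≥ 1` all but at most `C b ^ k N (b / N) ^ (c / (2 k b ^ k log b))` of the `l < N` are
such that every block of `k` digits occurs infinitely often in the expansion of `y l`. -/
theorem result (d : ℕ) : ∃ c C : ℝ, 0 < c ∧ 0 < C ∧ ∀ D : ℕ, ¬ IsSquare D →
    ∀ b : ℕ, 2 ≤ b → ∀ f : ℤ[X], 1 ≤ f.natDegree → f.natDegree ≤ d →
    ∀ h : ℝ[X], h.natDegree < f.natDegree → ∀ N : ℕ, 1 ≤ N →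
    (∀ S : ℕ, ∃ s : ℕ, S ≤ s ∧
      (s : ℝ) ≤ 2 * S + Real.log (N * |(f.leadingCoeff : ℝ)|) / Real.log b + Real.log D + 3 ∧
      (∀ α β : ℝ, 0 ≤ α → α ≤ β → β ≤ 1 →
        |({l : ℕ | l < N ∧ α ≤ Int.fract ((b : ℝ) ^ s * seqv f h (Real.sqrt D) l) ∧
            Int.fract ((b : ℝ) ^ s * seqv f h (Real.sqrt D) l) < β}.ncard : ℝ) - (β - α) * N|
          ≤ C * N * ((b : ℝ) / N) ^ c) ∧
      (∀ k L : ℕ, 1 ≤ k → k ≤ L → (b : ℝ) ^ L ≤ ((N : ℝ) / b) ^ c → ∀ ε : ℝ, 0 < ε → ε ≤ 1 →
        ({l : ℕ | l < N ∧ ∃ w : Fin k → Fin b, ε * (L + 1 - k : ℕ) + k <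
          |(occ b k w (seqv f h (Real.sqrt D) l) s (L + 1 - k) : ℝ)
            - (L + 1 - k : ℕ) / (b : ℝ) ^ k|}.ncard : ℝ)
          ≤ C * k * (b : ℝ) ^ k * Real.exp (-(ε ^ 2 / 4) * ((L + 1 - k) / k : ℕ)) * N)) ∧
    (∀ k : ℕ, 1 ≤ k →
      ({l : ℕ | l < N ∧ ∃ w : Fin k → Fin b,
        {p : ℕ | OccursAt b k w (seqv f h (Real.sqrt D) l) p}.Finite}.ncard : ℝ)
        ≤ C * (b : ℝ) ^ k * N * ((b : ℝ) / N) ^ (c / (2 * k * (b : ℝ) ^ k * Real.log b))) := by
  obtain ⟨c, hc, _, K, hK, hmain⟩ := poly_words d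
  refine ⟨c, K, hc, by linarith, ?_⟩
  intro D hD b hb f hf1 hf2 h hh N hN
  have hD2 : 2 ≤ D := by
    by_contra hlt
    apply hD
    interval_cases D
    · exact ⟨0, rfl⟩
    · exact ⟨1, rfl⟩
  have hDr : (2 : ℝ) ≤ D := by exact_mod_cast hD2
  have hs1 : 1 ≤ Real.sqrt D := by
    rw [Real.one_le_sqrt]; linarith
  obtain ⟨h1, h2⟩ := hmain (Real.sqrt D) 1 (1 / (2 * Real.sqrt D + 1)) one_pos (by positivity)
    (sqrt_measure D hD) b hb f hf1 hf2 h hh N hN
  refine ⟨?_, h2⟩
  intro S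
  obtain ⟨s, a1, a2, a3, a4⟩ := h1 S
  refine ⟨s, a1, ?_, a3, a4⟩
  refine a2.trans ?_
  have hl2 := Real.log_two_gt_d9
  have hl2' : 0 < Real.log 2 := by linarith
  have hlD : 0 < Real.log D := Real.log_pos (by linarith)
  have e1 : |Real.log (1 / (2 * Real.sqrt D + 1))| ≤ 2 * Real.log 2 + Real.log D / 2 := by
    rw [Real.log_div (by norm_num) (by positivity), Real.log_one, zero_sub, abs_neg,
      abs_of_nonneg (Real.log_nonneg (by linarith))]
    calc Real.log (2 * Real.sqrt D + 1) ≤ Real.log (2 ^ 2 * Real.sqrt D) := by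
          apply Real.log_le_log (by positivity); linarith
      _ = 2 * Real.log 2 + Real.log D / 2 := by
          rw [Real.log_mul (by norm_num) (by positivity), Real.log_pow, Real.log_sqrt (by linarith)]
          norm_num
  have e2 : |Real.log (1 / (2 * Real.sqrt D + 1))| / Real.log 2 ≤ 2 + Real.log D := by
    rw [div_le_iff₀ hl2']
    nlinarith
  linarith

end Pool.Agent.Results.MP_175f55_nt.PolynomialMultiples
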