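import Pool.Agent.TH382.FT.Main

/-!
# Digits of the rational translates of a number

Let `x` be any real number (for instance the square root of two), `b ≥ 2` a base and `M` coprime to
`b`.  The translates `x + r`, where `r` runs through the fractions in `[0, 1)` whose denominators
divide a power of `M`, have almost equidistributed words of digits at most times, with boundedly
many exceptions; the bound does not depend on `x`.
-/

set_option autoImplicit false

namespace Pool.Agent.Results.MP_175f55_nt.RationalTranslates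

open Filter Pool.Agent.TH382

/-- the `j`-th digit of `y` after the point in base `b` -/
noncomputable def digit (b : ℕ) (y : ℝ) (j : ℕ) : ℤ := ⌊(b : ℝ) ^ j * y⌋ % (b : ℤ)

/-- the number of `n < N` such that the word `w` stands at the places `n + 1, …, n + k` of `y` -/
noncomputable def occurrences {b k : ℕ} (w : Fin k → Fin b) (y : ℝ) (N : ℕ) : ℕ :=
  {n : ℕ | n < N ∧ ∀ i : Fin k, digit b y (n + 1 + i) = (w i : ℕ)}.ncard

/-- each word of length `k` stands at `N / b ^ k` of the first `N` places of `y`, up to `ε N` -/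
def Good (b k : ℕ) (ε y : ℝ) (N : ℕ) : Prop :=
  ∀ w : Fin k → Fin b, |(occurrences w y N : ℝ) - N / (b : ℝ) ^ k| ≤ ε * N

/-- `r` is in `[0, 1)` and has a denominator which divides a power of `M` -/
def Radic (M : ℕ) (r : ℝ) : Prop := 0 ≤ r ∧ r < 1 ∧ ∃ (j : ℕ) (u : ℤ), r = (u : ℝ) / (M : ℝ) ^ j

lemma good_iff (b k : ℕ) (ε y : ℝ) (N : ℕ) : Good b k ε y N ↔ FT.Good b k ε y N := by
  unfold Good FT.Good
  refine forall_congr' fun w => ?_
  have h1 : occurrences w y N = FT.occ w y N := by
    unfold occurrences FT.occ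
    rw [← Set.ncard_coe_finset]
    congr 1
    ext n
    simp only [Set.mem_ofPred_eq, Finset.coe_filter, Finset.mem_range]
    rfl
  rw [h1]

/-- **The translates of a number by fractions.**  Let `b ≥ 2`, let `M ≥ 1` be coprime to `b`, and let
`k` and `ε > 0` be given.  There is a constant `C` with the following two properties.

For every finite set `R` of fractions in `[0, 1)` whose denominators divide powers of `M` there is
`N₀` such that for every real `x` and every `N ≥ N₀` at most `C` of the numbers `x + r`, `r ∈ R`,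
have a word of length `k` whose frequency in the first `N` places differs from `b ^ (-k)` by more
than `ε`.

For every real `x` and `η > 0`, for all such fractions `r` with at most `C / η` exceptions, the set
of the `N` for which all words of length `k` have the right frequency in the first `N` places of
`x + r`, up to `ε`, has upper density at least `1 - η`. -/
theorem result (b M : ℕ) (hb : 2 ≤ b) (hM : 1 ≤ M) (hbM : Nat.Coprime b M) (k : ℕ) (ε : ℝ)
    (hε : 0 < ε) :
    ∃ C : ℝ,
      (∀ R : Finset ℝ, (∀ r ∈ R, Radic M r) → ∃ N₀ : ℕ, ∀ (x : ℝ) (N : ℕ), N₀ ≤ N →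
        ({r : ℝ | r ∈ R ∧ ¬ Good b k ε (x + r) N}.ncard : ℝ) ≤ C) ∧
      ∀ x η : ℝ, 0 < η →
        {r : ℝ | Radic M r ∧ ¬ ∃ᶠ X : ℕ in atTop,
          (1 - η) * X ≤ ({N : ℕ | N < X ∧ Good b k ε (x + r) N}.ncard : ℝ)}.Finite ∧
        ({r : ℝ | Radic M r ∧ ¬ ∃ᶠ X : ℕ in atTop,
          (1 - η) * X ≤ ({N : ℕ | N < X ∧ Good b k ε (x + r) N}.ncard : ℝ)}.ncard : ℝ) ≤ C / η := by
  classical
  obtain ⟨C, hC0, hC⟩ := FT.bad_count hb (by omega : M ≠ 0) hbM k hε
  refine ⟨C, fun R hR => ?_, fun x η hη => ?_⟩
  · obtain ⟨N₀, hN₀⟩ := hC R hR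
    refine ⟨N₀, fun x N hN => ?_⟩
    have h1 := hN₀ x N hN
    have h2 : {r : ℝ | r ∈ R ∧ ¬ Good b k ε (x + r) N} =
        ((R.filter fun r => ¬ FT.Good b k ε (x + r) N : Finset ℝ) : Set ℝ) := by
      ext r
      simp only [Set.mem_ofPred_eq, Finset.coe_filter, good_iff]
    rw [h2, Set.ncard_coe_finset]
    convert h1
  · set S : Set ℝ := {r : ℝ | Radic M r ∧ ¬ ∃ᶠ X : ℕ in atTop,
      (1 - η) * X ≤ ({N : ℕ | N < X ∧ Good b k ε (x + r) N}.ncard : ℝ)} with hS
    have hgt : ∀ (y : ℝ) (X : ℕ), {N : ℕ | N < X ∧ Good b k ε y N}.ncard =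
        FT.goodTimes b k ε y X := by
      intro y X
      have h2 : {N : ℕ | N < X ∧ Good b k ε y N} =
          (((Finset.range X).filter fun N => FT.Good b k ε y N : Finset ℕ) : Set ℕ) := by
        ext N
        simp only [Set.mem_ofPred_eq, Finset.coe_filter, Finset.mem_range, good_iff]
      rw [h2, Set.ncard_coe_finset]
      unfold FT.goodTimes
      congr 1
    have key : ∀ R : Finset ℝ, (R : Set ℝ) ⊆ S → (R.card : ℝ) ≤ C / η := by
      intro R hR
      rw [le_div_iff₀ hη]
      refine FT.exceptional (M := M) (b := b) (k := k) (ε := ε) (x := x) hC R fun r hr => ?_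
      have h1 := hR hr
      rw [hS, Set.mem_ofPred_eq] at h1
      refine ⟨h1.1, ?_⟩
      have h2 := h1.2
      simp only [hgt] at h2
      exact h2
    have hfin : S.Finite := by
      by_contra hinf
      obtain ⟨R, hR, hcard⟩ := Set.Infinite.exists_subset_card_eq hinf (⌊C / η⌋₊ + 1)
      have h1 := key R hR
      rw [hcard] at h1
      have h2 := Nat.lt_floor_add_one (C / η)
      push_cast at h1
      linarith
    refine ⟨hfin, ?_⟩
    have h1 := key hfin.toFinset (by simp)
    rwa [← Set.ncard_eq_toFinset_card _ hfin] at h1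

end Pool.Agent.Results.MP_175f55_nt.RationalTranslates
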