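import Mathlib
import Pool.Agent.TH461.AL.Dec2

/-!
# Decimal words in all long windows of `2 ^ n √2` for almost all `n`

For `u, v ≥ 2` coprime (such as `u = 2`, `v = 5`) and `ξ` algebraic and irrational (such as `√2`):
for all but `δ M` of any `M` consecutive exponents `n`, every word of `k` digits in base `u v` occurs
at least `M ^ (1 - ε)` times in every long window of digits of `u ^ n ξ`.
-/

set_option autoImplicit false

open Filter Topology

namespace Pool.Agent.Results.MP_175f55_nt.WordsInWindowsOfDoubles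

open Classical in
/-- Let `u, v ≥ 2` be coprime (for instance `u = 2`, `v = 5` or `u = 5`, `v = 2`), `b = u v`, `ξ` a
real algebraic irrational number, and `k`, `R`, `ε, δ, η > 0`.  There is `M0` such that for all
`M ≥ M0` and all `J`, for all but at most `δ M` of the exponents `n = J + t`, `t < M`: for every
window `s + 1, …, s + l` of places behind the point, with `s + l ≤ R (J + M)` and `l ≥ η (J + M)`,
and for every word of `k` base `b` digits (the word with value `W < b ^ k`, with leading zeros), this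
word occurs in the window of the base `b` expansion of `u ^ n ξ` (modulo `1`) at least `M ^ (1 - ε)`
times: right after the `i`-th digit behind the point, `s ≤ i ≤ s + l - k`. -/
theorem result (u v : ℕ) (hu : 2 ≤ u) (hv : 2 ≤ v) (hco : Nat.Coprime u v) (ξ : ℝ)
    (hξ : Irrational ξ) (halg : IsAlgebraic ℚ ξ) (k R : ℕ) (ε δ η : ℝ) (hε : 0 < ε) (hδ : 0 < δ)
    (hη : 0 < η) :
    ∃ M0 : ℕ, ∀ M : ℕ, M0 ≤ M → ∀ J : ℕ,
      (((Finset.range M).filter (fun t : ℕ => ¬ ∀ s l : ℕ, s + l ≤ R * (J + M) →
        η * ((J : ℝ) + M) ≤ l → ∀ W < (u * v) ^ k, (M : ℝ) ^ (1 - ε) ≤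
          (((Finset.range (s + l)).filter (fun i : ℕ => s ≤ i ∧ i + k ≤ s + l ∧
            ⌊((u * v : ℕ) : ℝ) ^ (i + k) * ((u : ℝ) ^ (J + t) * ξ)⌋ %
              (((u * v : ℕ) : ℤ) ^ k) = (W : ℤ))).card : ℝ))).card : ℝ) ≤ δ * M :=
  Pool.Agent.TH461.AL.Dec2.alg_windows hu hv hco hξ halg k R hε hδ hη

end Pool.Agent.Results.MP_175f55_nt.WordsInWindowsOfDoubles
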